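import Pool.Agent.Q35.TT.Stm5
import Pool.Agent.Q121.TT.Fs2
import Pool.Agent.Q149.TT.Spe
import Pool.Agent.Q190.TT.Tws

/-!
# Project TT (helper35), job OPN: `S_OPN`. Author of this file: helper222.
-/

set_option autoImplicit false

open MvPolynomial Pool.Agent.Y720.MZ

namespace Pool.Agent.Q222.TT.Opn

open Pool.Agent.Q35.TT Pool.Agent.Results.MP_ed3816_nt.OpenAwayFromTorsion
open Pool.Agent.Q121.TT (cf rep lc_zero lc_one smooth smooth_swap eval_f eval_f' eval_d eval_d' not_nd
  pq_eval pq_deg)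
open Pool.Agent.Q190.TT (lc_smul bq_smul)

section lines

variable {K : Type} [Field K] [CharZero K]

omit [CharZero K] in
/-- the value of `f` on a line -/
theorem eval_lc {f : MvPolynomial (Fin 2) K} (hf : ∀ j, f.degreeOf j ≤ 4) (y : Fin 2 → K) (i : Fin 2) :
    eval y f = bq (lc f (af y) i) ![1, y i] := by
  fin_cases i
  · change eval y f = bq (lc f (af y) 0) ![1, y 0]
    rw [lc_zero f hf, eval_f' f hf]
    rfl
  · change eval y f = bq (lc f (af y) 1) ![1, y 1]
    rw [lc_one f hf, eval_f f hf]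
    rfl

omit [CharZero K] in
/-- the coefficients of the restriction to a line do not change along the line -/
theorem lc_line {f : MvPolynomial (Fin 2) K} (hf : ∀ j, f.degreeOf j ≤ 4) (y y' : Fin 2 → K) (i : Fin 2)
    (h : ∀ j, j ≠ i → y j = y' j) : lc f (af y) i = lc f (af y') i := by
  fin_cases i
  · change lc f (af y) 0 = lc f (af y') 0
    rw [lc_zero f hf, lc_zero f hf, af, af, h 1 (by decide)]
  · change lc f (af y) 1 = lc f (af y') 1
    rw [lc_one f hf, lc_one f hf, af, af, h 0 (by decide)]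

/-- the restriction to a line -/
theorem rst_tay {f : MvPolynomial (Fin 2) K} (hf : ∀ j, f.degreeOf j ≤ 4) (z : Fin 2 → K) (i : Fin 2) :
    rst f z (Pi.single i 1) = qpol (bq (lc f (af z) i) ![1, z i]) (tay (lc f (af z) i) (z i) 0)
      (tay (lc f (af z) i) (z i) 1) (tay (lc f (af z) i) (z i) 2) (tay (lc f (af z) i) (z i) 3) := by
  refine Polynomial.funext fun t => ?_
  rw [rst_eval, eval_qpol, eval_lc hf _ i, lc_line hf (z + t • (Pi.single i 1 : Fin 2 → K)) z i]
  · have h1 : (z + t • (Pi.single i 1 : Fin 2 → K)) i = z i + t := by simp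
    rw [h1]
    simp only [bq, tay, Matrix.cons_val_zero, Matrix.cons_val_one, Matrix.cons_val]
    ring
  · intro j hj
    simp [hj]

theorem rst_coef {f : MvPolynomial (Fin 2) K} (hf : ∀ j, f.degreeOf j ≤ 4) (z : Fin 2 → K) (i : Fin 2) :
    cq f z (Pi.single i 1) 0 = tay (lc f (af z) i) (z i) 0 ∧
    cq f z (Pi.single i 1) 1 = tay (lc f (af z) i) (z i) 1 ∧
    cq f z (Pi.single i 1) 2 = tay (lc f (af z) i) (z i) 2 ∧
    cq f z (Pi.single i 1) 3 = tay (lc f (af z) i) (z i) 3 := by
  have h1 := rst_qpol (f := f) (z := z) (e := Pi.single i 1) (deg_rst (hf i) z)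
  rw [rst_tay hf z i] at h1
  obtain ⟨-, h2, h3, h4, h5⟩ := qpol_inj h1
  exact ⟨h2.symm, h3.symm, h4.symm, h5.symm⟩

/-- the discriminant -/
theorem Tq_lc {f : MvPolynomial (Fin 2) K} (hf : ∀ j, f.degreeOf j ≤ 4) (z : Fin 2 → K) (i : Fin 2) :
    Tq f (Pi.single i 1) z = dc (lc f (af z) i 0) (lc f (af z) i 1) (lc f (af z) i 2)
      (lc f (af z) i 3) (lc f (af z) i 4) := by
  obtain ⟨h0, h1, h2, h3⟩ := rst_coef hf z i
  rw [Pool.Agent.Q275.KC.Tq_dc, h0, h1, h2, h3, eval_lc hf z i,
    ← dc_shift (z i) (lc f (af z) i 0)]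
  simp only [bq, tay, Matrix.cons_val_zero, Matrix.cons_val_one, Matrix.cons_val]
  congr 1 <;> ring

end lines

section transport

variable {K F : Type} [Field K] [CharZero K] [Field F] [CharZero F] (φ : K →+* F)

omit [CharZero K] [CharZero F] in
theorem single_map (i : Fin 2) : (fun a => φ ((Pi.single i 1 : Fin 2 → K) a)) = Pi.single i 1 := by
  funext a
  by_cases h : a = i
  · subst h; simp
  · rw [Pi.single_eq_of_ne h, Pi.single_eq_of_ne h, map_zero]

theorem line_map (g : MvPolynomial (Fin 2) K) (x : Fin 2 → K) (i : Fin 2) :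
    line (map φ g) (fun j => φ (x j)) i = (line g x i).map φ := by
  have h := rst_map φ g x (Pi.single i 1)
  rw [single_map] at h
  exact h.symm

omit [CharZero K] [CharZero F] in
theorem genus_map {q : Polynomial K} (h : GenusOne q) : GenusOne (q.map φ) := by
  have e : jacobian (q.map φ) ((q.map φ).coeff 0) = (jacobian q (q.coeff 0)).map φ := by
    simp only [jacobian, WeierstrassCurve.map, Polynomial.coeff_map, map_zero, map_sub, map_add, map_mul,
      map_pow, map_ofNat]
  rw [GenusOne, e, WeierstrassCurve.map_Δ]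
  exact (map_ne_zero φ).2 h

theorem special_map {g : MvPolynomial (Fin 2) K} {x : Fin 2 → K} {i j : Fin 2} (h : NotSpecial g x i j) :
    NotSpecial (map φ g) (fun j => φ (x j)) i j := by
  obtain ⟨h1, u, h2⟩ := h
  refine ⟨?_, φ u, ?_⟩
  · rw [pderiv_map, line_map, line_map, Polynomial.map_dvd_map']
    exact h1
  · have h3 := genus_map φ h2
    rw [← line_map] at h3
    have e : (fun a => φ (x a) + φ u * (Pi.single i 1 : Fin 2 → F) a) =
        fun a => φ (x a + u * (Pi.single i 1 : Fin 2 → K) a) := by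
      funext a
      rw [map_add, map_mul]
      congr 2
      exact (congrFun (single_map φ i) a).symm
    rw [e]
    exact h3

theorem moves_map {g : MvPolynomial (Fin 2) K} (hg : ∀ j, g.degreeOf j ≤ 4) {z : Fin 2 → K} {w : K}
    {i : Fin 2} (hw : w ≠ 0) (hon : w ^ 2 = eval z g) (hG : GenusOne (line g z i))
    (hI : ∀ N : ℕ, N ≠ 0 → ¬ Tor (lc g (af z) i) (z i) w N) :
    Moves (map φ g) (image φ (z, w)) i := by
  refine ⟨?_, ?_⟩
  · change GenusOne (line (map φ g) (fun j => φ (z j)) i)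
    rw [line_map]
    exact genus_map φ hG
  · have hT := genusOne_iff.1 hG
    have h1 : IOt (th g (Pi.single i 1) z w) := by
      refine ⟨?_, ?_⟩
      · let : DecidableEq K := Classical.decEq K
        rw [Tq_eq (show onX g z w from hon)]
        exact hT
      · intro h n hn h0
        refine hI n hn ⟨hw, ?_, ?_, ?_⟩
        · rw [hon, eval_lc hg z i]
        · rw [← Tq_lc hg z i]
          exact hT
        · obtain ⟨e0, e1, e2, e3⟩ := rst_coef hg z i
          rw [← e0, ← e1, ← e2, ← e3]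
          exact ⟨h, h0⟩
    have h2 := io_map φ h1
    rw [← th_map, single_map] at h2
    exact h2.2

end transport

section twist

variable {K : Type} [Field K] [CharZero K]

omit [CharZero K] in
theorem line_twist (e : K) (g : MvPolynomial (Fin 2) K) (x : Fin 2 → K) (i : Fin 2) :
    line (C e * g) x i = Polynomial.C e * line g x i := by
  rw [line, map_mul, aeval_C]
  rfl

omit [CharZero K] in
theorem genus_twist {e : K} (he : e ≠ 0) {q : Polynomial K} (h : GenusOne q) :
    GenusOne (Polynomial.C e * q) := by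
  have e1 : (jacobian (Polynomial.C e * q) ((Polynomial.C e * q).coeff 0)).Δ =
      e ^ 6 * (jacobian q (q.coeff 0)).Δ := by
    simp only [jacobian, WeierstrassCurve.Δ, WeierstrassCurve.b₂, WeierstrassCurve.b₄, WeierstrassCurve.b₆,
      WeierstrassCurve.b₈, Polynomial.coeff_C_mul]
    ring
  rw [GenusOne, e1]
  exact mul_ne_zero (pow_ne_zero 6 he) h

omit [CharZero K] in
theorem special_twist {e : K} (he : e ≠ 0) {g : MvPolynomial (Fin 2) K} {x : Fin 2 → K} {i j : Fin 2}
    (h : NotSpecial g x i j) : NotSpecial (C e * g) x i j := by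
  obtain ⟨h1, u, h2⟩ := h
  refine ⟨?_, u, ?_⟩
  · rw [pderiv_C_mul, line_twist, line_twist]
    intro h3
    apply h1
    have hu : IsUnit (Polynomial.C e) := Polynomial.isUnit_C.2 he.isUnit
    exact (hu.dvd_mul_left.1 ((dvd_mul_left _ _).trans h3))
  · rw [line_twist]
    exact genus_twist he h2

end twist

section generic

variable {K : Type} [Field K] [CharZero K]

theorem genus_iff {f : MvPolynomial (Fin 2) K} (hf : ∀ j, f.degreeOf j ≤ 4) (z : Fin 2 → K) (i : Fin 2) :
    GenusOne (line f z i) ↔ dc (lc f (af z) i 0) (lc f (af z) i 1) (lc f (af z) i 2)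
      (lc f (af z) i 3) (lc f (af z) i 4) ≠ 0 := by
  rw [genusOne_iff, Tq_lc hf]

theorem ex_genus (h3 : S_SPE) {f : MvPolynomial (Fin 2) K} (hf : ∀ j, f.degreeOf j ≤ 4) (hs : SmoothN f)
    (j : Fin 2) : ∃ z : Fin 2 → K, GenusOne (line f z j) := by
  have : Infinite K := CharZero.infinite K
  have hs1 := smooth hf hs
  have hs2 := smooth_swap hs1
  fin_cases j
  · obtain ⟨s, hs⟩ := (h3 K _ hs2).2.exists_notMem
    refine ⟨![0, s], ?_⟩
    change GenusOne (line f ![0, s] 0)
    rw [genus_iff hf, lc_zero f hf]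
    intro h0
    exact hs (Or.inl h0)
  · obtain ⟨s, hs⟩ := (h3 K _ hs1).2.exists_notMem
    refine ⟨![s, 0], ?_⟩
    change GenusOne (line f ![s, 0] 1)
    rw [genus_iff hf, lc_one f hf]
    intro h0
    exact hs (Or.inl h0)

omit [CharZero K] in
theorem dd_single (f : MvPolynomial (Fin 2) K) : dd f (Pi.single 1 1) = pderiv 1 f := by
  rw [dd, Fin.sum_univ_two]
  simp

/-- `f` is not a product of two polynomials in one variable each -/
theorem not_prod (h3 : S_SPE) {f : MvPolynomial (Fin 2) K} (hf : ∀ j, f.degreeOf j ≤ 4) (hs : SmoothN f) :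
    f * pderiv 0 (pderiv 1 f) ≠ pderiv 0 f * pderiv 1 f := by
  have : Infinite K := CharZero.infinite K
  intro heq
  obtain ⟨s, hs⟩ := (h3 K _ (smooth hf hs)).2.exists_notMem
  rw [Set.mem_ofPred_eq, not_or, not_not] at hs
  obtain ⟨hs1, hs2⟩ := hs
  have hP : ∀ t, (rst f ![s, 0] (Pi.single 1 1)).eval t = bq (cy (cf f) ![1, s]) ![1, t] := by
    intro t
    rw [rst_eval, eval_f f hf]
    simp
  have hQ : ∀ t, (rst (pderiv 0 f) ![s, 0] (Pi.single 1 1)).eval t = bq (gd (cf f) s) ![1, t] := by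
    intro t
    rw [rst_eval, eval_d f hf]
    simp
  have hP0 : rst f ![s, 0] (Pi.single 1 1) ≠ 0 := by
    intro h0
    apply hs1
    apply Pool.Agent.Q149.TT.dc_low
    have h1 : pq (cy (cf f) ![1, s]) = 0 := by
      refine Polynomial.funext fun t => ?_
      rw [pq_eval, ← hP, h0]
    rw [h1]
    simp
  have h1 : rst (pderiv 0 f) ![s, 0] (Pi.single 1 1) * Polynomial.derivative (rst f ![s, 0] (Pi.single 1 1)) =
      Polynomial.derivative (rst (pderiv 0 f) ![s, 0] (Pi.single 1 1)) * rst f ![s, 0] (Pi.single 1 1) := by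
    rw [rst_deriv, rst_deriv, dd_single, dd_single, Pool.Agent.Q275.KC.pdc 1 0]
    have h2 := congrArg (fun p => rst p ![s, 0] (Pi.single 1 1)) heq
    simp only [rst, map_mul] at h2 ⊢
    rw [← h2, mul_comm]
  obtain ⟨κ, hκ⟩ := Pool.Agent.Q149.TT.wronsk _ _ hP0 h1
  refine not_nd _ _ κ (fun t => ?_) hs2
  rw [← hP, ← hQ, hκ, Polynomial.eval_mul, Polynomial.eval_C]

end generic

/-- OPN -/
theorem opn (h1 : S_TAN) (h2 : S_TWS) (h3 : S_SPE) : S_OPN := by
  intro K _ _ f hf hs
  have hreg := (Pool.Agent.Results.MP_ed3816_nt.OpenAwayFromTorsion.result).2 K f hf (ex_genus h3 hf hs)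
    (not_prod h3 hf hs) K (RingHom.id K)
  simp only [map_id] at hreg
  refine ⟨{z | ∀ i, TorN f z i}, fun j => {c | ∃ i, i ≠ j ∧ ∃ x : Fin 2 → K, x j = c ∧
    ¬ (GenusOne (line f x i) ∧ NotSpecial f x i j)}, h1 K 2 f hf hs, fun j => ?_, ?_⟩
  · have h4 : (⋃ i ∈ {i : Fin 2 | i ≠ j}, {c | ∃ x : Fin 2 → K, x j = c ∧
        ¬ (GenusOne (line f x i) ∧ NotSpecial f x i j)}).Finite :=
      (Set.toFinite _).biUnion fun i hi => hreg i j hi
    refine h4.subset ?_
    rintro c ⟨i, hi, x, hx, hn⟩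
    exact Set.mem_iUnion₂.2 ⟨i, hi, x, hx, hn⟩
  intro e he z w hw hon hT hE ι _ _ p _ hinj σ
  have hg : ∀ j, (C e * f).degreeOf j ≤ 4 := fun j => (degreeOf_C_mul_le f j e).trans (hf j)
  rw [Set.mem_ofPred_eq] at hT
  push Not at hT
  obtain ⟨i, hi⟩ := hT
  have hGN : ∀ i j, i ≠ j → GenusOne (line f z i) ∧ NotSpecial f z i j := by
    intro i j hij
    by_contra hcon
    exact hE j ⟨i, hij, z, rfl, hcon⟩
  have hG : GenusOne (line f z i) := by
    rcases (show i = 0 ∨ i = 1 by omega) with rfl | rfl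
    · exact (hGN 0 1 (by decide)).1
    · exact (hGN 1 0 (by decide)).1
  have hG' : GenusOne (line (C e * f) z i) := by
    rw [line_twist]
    exact genus_twist he hG
  have hI : ∀ N : ℕ, N ≠ 0 → ¬ Tor (lc (C e * f) (af z) i) (z i) w N := by
    intro N hN h5
    rw [lc_smul f e he, h2 K _ e _ _ _ he] at h5
    exact hi ⟨N, hN, h5.2.2⟩
  have hS : ∀ (F : Type) [Field F] [CharZero F] (φ : K →+* F) (j : Fin 2),
      Serves (map φ (C e * f)) (image φ (z, w)).1 i j := by
    intro F _ _ φ j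
    by_cases hij : i = j
    · exact Or.inl hij
    · exact Or.inr (special_map φ (special_twist he (hGN i j hij).2))
  have hon' : OnCover (C e * f) (z, w) := hon
  refine ⟨?_, fun τ => ?_⟩
  · refine ((Pool.Agent.Results.MP_ed3816_nt.OpenAwayFromTorsion.result).1 K 2 (C e * f) hg ι p hinj σ).1
      (fun v => image (σ v) (z, w)) (subset_closure ⟨(z, w), hon', rfl⟩) (fun v => ?_) fun j => ⟨i, fun v => ?_⟩
    · exact (map_ne_zero (σ v)).2 hw
    · exact ⟨moves_map (σ v) hg hw hon hG' hI, hS _ (σ v) j⟩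
  · refine ((Pool.Agent.Results.MP_ed3816_nt.OpenAwayFromTorsion.result).1 K 2 (C e * f) hg ι p hinj σ).2 τ
      (image τ (z, w), fun v => image (σ v) (z, w)) (subset_closure ⟨(z, w), hon', rfl⟩) ?_ (fun v => ?_)
      fun j => ⟨i, ⟨?_, hS _ τ j⟩, fun v => ?_⟩
    · exact (map_ne_zero τ).2 hw
    · exact (map_ne_zero (σ v)).2 hw
    · change GenusOne (line (map τ (C e * f)) (fun j => τ (z j)) i)
      rw [line_map]
      exact genus_map τ hG'
    · exact ⟨moves_map (σ v) hg hw hon hG' hI, hS _ (σ v) j⟩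

end Pool.Agent.Q222.TT.Opn
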